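import Pool.Agent.Helper19.Qh.Stmts

set_option autoImplicit false

/-!
# Assembly of the lower bound for the cuspidal eigenvalues (module MAIN)
-/

namespace Pool.Agent.Helper19.Qh

open MeasureTheory Topology
open scoped ENNReal ComplexConjugate

variable {m : ℕ}

/-- the strip has finite weighted volume -/
theorem main_strip (C : ℝ) :
    ∫⁻ z in {z : Q | ‖z.im‖ ≤ C}, ENNReal.ofReal (((1 + |z.re|) ^ 2)⁻¹) < ⊤ := by
  have hS : MeasurableSet {z : Q | ‖z.im‖ ≤ C} :=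
    measurableSet_le Quaternion.continuous_im.norm.measurable measurable_const
  set w : ℤ → ℝ := fun n => 4 * (1 / |(n : ℝ) + 1 / 2| ^ (2 : ℝ)) with hw
  have hwpos : ∀ n, 0 ≤ w n := fun n => by
    rw [hw]
    positivity
  have hsum : Summable w := by
    rw [hw]
    exact ((Real.summable_one_div_int_add_rpow (1 / 2) 2).2 (by norm_num)).mul_left 4
  have hpt : ∀ z ∈ {z : Q | ‖z.im‖ ≤ C}, ENNReal.ofReal (((1 + |z.re|) ^ 2)⁻¹)
      ≤ ∑' n : ℤ, (Metric.closedBall (((n : ℝ) : Q)) (1 + C)).indicator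
          (fun _ => ENNReal.ofReal (w n)) z := by
    intro z hz
    have hz' : ‖z.im‖ ≤ C := hz
    set n : ℤ := ⌊z.re⌋ with hn
    have h1 : (n : ℝ) ≤ z.re := Int.floor_le _
    have h2 : z.re < n + 1 := Int.lt_floor_add_one _
    have hmem : z ∈ Metric.closedBall (((n : ℝ) : Q)) (1 + C) := by
      rw [mem_closedBall_iff_norm]
      have e : z - (((n : ℝ) : Q)) = ((z.re - n : ℝ) : Q) + z.im := by
        conv_lhs => rw [← Quaternion.re_add_im z]
        rw [Quaternion.coe_sub]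
        abel
      rw [e]
      refine (norm_add_le _ _).trans (add_le_add ?_ hz')
      rw [Quaternion.norm_coe, Real.norm_eq_abs, abs_le]
      constructor <;> linarith
    have h3 : ENNReal.ofReal (((1 + |z.re|) ^ 2)⁻¹) ≤ ENNReal.ofReal (w n) := by
      apply ENNReal.ofReal_le_ofReal
      rw [hw]
      simp only
      rw [Real.rpow_two, sq_abs]
      have h4 : ((n : ℝ) + 1 / 2) ^ 2 ≤ (1 + |z.re|) ^ 2 := by
        rw [← sq_abs ((n : ℝ) + 1 / 2)]
        refine pow_le_pow_left₀ (abs_nonneg _) ?_ 2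
        have := abs_le.1 (le_refl |z.re|)
        rw [abs_le]
        constructor <;> linarith [this.1, this.2]
      have h5 : 0 < ((n : ℝ) + 1 / 2) ^ 2 := by
        have h6 : ((n : ℝ) + 1 / 2) ≠ 0 := by
          intro h0
          have h7 : (2 * n + 1 : ℤ) = 0 := by
            have : (2 * (n : ℝ) + 1) = 0 := by linarith
            exact_mod_cast this
          omega
        positivity
      calc ((1 + |z.re|) ^ 2)⁻¹ ≤ (((n : ℝ) + 1 / 2) ^ 2)⁻¹ := inv_anti₀ h5 h4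
        _ ≤ 4 * (1 / ((n : ℝ) + 1 / 2) ^ 2) := by
          have h10 := inv_pos.2 h5
          rw [one_div (((n : ℝ) + 1 / 2) ^ 2)]
          linarith
    refine h3.trans ?_
    refine le_trans ?_ (ENNReal.le_tsum n)
    rw [Set.indicator_of_mem hmem]
  refine lt_of_le_of_lt (setLIntegral_mono' hS hpt) ?_
  refine lt_of_le_of_lt (setLIntegral_le_lintegral _ _) ?_
  rw [lintegral_tsum fun n => (measurable_const.indicator
    Metric.isClosed_closedBall.measurableSet).aemeasurable]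
  have h8 : ∀ n : ℤ, ∫⁻ z : Q, (Metric.closedBall (((n : ℝ) : Q)) (1 + C)).indicator
      (fun _ => ENNReal.ofReal (w n)) z
      = ENNReal.ofReal (w n) * volume (Metric.closedBall (0 : Q) (1 + C)) := by
    intro n
    rw [lintegral_indicator_const Metric.isClosed_closedBall.measurableSet,
      Measure.addHaar_closedBall_center]
  simp only [h8]
  rw [ENNReal.tsum_mul_right]
  refine ENNReal.mul_lt_top ?_ measure_closedBall_lt_top
  exact lt_top_iff_ne_top.2 hsum.tsum_ofReal_ne_top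

/-- the hyperbolic volume of a Siegel-type set is finite -/
theorem main_hyp_Sieg (C a : ℝ) (ha : 0 < a) : hyp m (Sieg m C a) < ⊤ := by
  have hmeas := measurableSet_Sieg (m := m) C a
  -- a lower bound for the height
  set c : ℝ := min 1 (a / (2 + C ^ 2)) with hc
  have hc0 : 0 < c := by
    rw [hc]
    exact lt_min one_pos (by positivity)
  have hlow : ∀ p ∈ Sieg m C a, c * (1 + |p.1.re|) ≤ hgt p := by
    rintro p ⟨h1, h2, h3⟩
    have hz : ‖p.2‖ ^ 2 ≤ C ^ 2 := pow_le_pow_left₀ (norm_nonneg _) h1 2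
    have hx : 2 * p.1.re ≤ -a - ‖p.2‖ ^ 2 := by
      unfold hgt at h3; linarith
    have hxneg : p.1.re ≤ 0 := by nlinarith [sq_nonneg ‖p.2‖]
    rw [abs_of_nonpos hxneg]
    have hh : hgt p = -2 * p.1.re - ‖p.2‖ ^ 2 := by unfold hgt; ring
    have hc1 : c ≤ 1 := min_le_left _ _
    have hc2 : c * (2 + C ^ 2) ≤ a := by
      have : c ≤ a / (2 + C ^ 2) := min_le_right _ _
      calc c * (2 + C ^ 2) ≤ a / (2 + C ^ 2) * (2 + C ^ 2) := by gcongr
        _ = a := by field_simp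
    set X : ℝ := -p.1.re with hX
    have hX0 : 0 ≤ X := by linarith
    have hh' : hgt p = 2 * X - ‖p.2‖ ^ 2 := by rw [hh]; ring
    have e : 1 + -p.1.re = 1 + X := rfl
    rw [e]
    have h5 : c * (1 + X) = c / 2 * (2 + C ^ 2) + c / 2 * (2 * X - C ^ 2) := by ring
    rcases le_total (2 * X - C ^ 2) 0 with h6 | h6
    · nlinarith
    · nlinarith
  set G : Q → ℝ≥0∞ := fun z => ENNReal.ofReal ((c ^ (2 * m + 4))⁻¹)
    * ENNReal.ofReal (((1 + |z.re|) ^ 2)⁻¹) with hG
  have hGm : Measurable G := by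
    rw [hG]
    exact (((measurable_const.add
      continuous_re.abs.measurable).pow_const 2).inv).ennreal_ofReal.const_mul _
  have h1 : hyp m (Sieg m C a)
      ≤ ∫⁻ p : Pt m in ({z : Q | ‖z.im‖ ≤ C}) ×ˢ (Metric.closedBall (0 : E m) C), G p.1 := by
    rw [hyp, withDensity_apply _ hmeas]
    rw [Measure.restrict_restrict hmeas]
    have hset : Sieg m C a ∩ SD m ⊆ ({z : Q | ‖z.im‖ ≤ C}) ×ˢ (Metric.closedBall (0 : E m) C) := by
      rintro p ⟨⟨h1, h2, h3⟩, -⟩
      exact ⟨h2, by simpa using h1⟩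
    calc _ ≤ ∫⁻ p : Pt m in Sieg m C a ∩ SD m, G p.1 := by
            refine setLIntegral_mono' (hmeas.inter measurableSet_SD) ?_
            rintro p ⟨hp, -⟩
            rw [hG]
            simp only
            rw [← ENNReal.ofReal_mul (by positivity)]
            apply ENNReal.ofReal_le_ofReal
            have h8 := hlow p hp
            have h7 : 0 < c * (1 + |p.1.re|) := by positivity
            have h9 : ((c * (1 + |p.1.re|)) ^ (2 * m + 4)) ≤ hgt p ^ (2 * m + 4) :=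
              pow_le_pow_left₀ h7.le h8 _
            have h10 : c ^ (2 * m + 4) * (1 + |p.1.re|) ^ 2
                ≤ (c * (1 + |p.1.re|)) ^ (2 * m + 4) := by
              rw [mul_pow]
              refine mul_le_mul_of_nonneg_left ?_ (by positivity)
              exact pow_le_pow_right₀ (by linarith [abs_nonneg p.1.re]) (by omega)
            rw [← mul_inv]
            exact inv_anti₀ (by positivity) (h10.trans h9)
      _ ≤ _ := lintegral_mono_set hset
  refine lt_of_le_of_lt h1 ?_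
  rw [show (volume : Measure (Pt m)) = (volume : Measure Q).prod (volume : Measure (E m)) from rfl,
    ← Measure.prod_restrict]
  rw [lintegral_prod (fun p : Pt m => G p.1) (hGm.comp measurable_fst).aemeasurable]
  simp only [lintegral_const, Measure.restrict_apply_univ]
  rw [lintegral_mul_const _ hGm]
  apply ENNReal.mul_lt_top _ measure_closedBall_lt_top
  rw [hG, lintegral_const_mul' _ _ ENNReal.ofReal_ne_top]
  exact ENNReal.mul_lt_top ENNReal.ofReal_lt_top (main_strip C)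

theorem Kap.le_one {M : AddSubgroup (V m)} {κ : Pt m → ℝ} {C a : ℝ} (hK : Kap M κ C a)
    {p : Pt m} (hp : p ∈ SD m) : κ p ≤ 1 := by
  have h := hK.sum p hp
  have h1 := le_hasSum h (1 : Gam M) (fun j _ => hK.nonneg _)
  rw [Subgroup.coe_one, act_one p] at h1
  exact h1

theorem Kap.lintegral_lt_top {M : AddSubgroup (V m)} {κ : Pt m → ℝ} {C a : ℝ}
    (hK : Kap M κ C a) : ∫⁻ p, ENNReal.ofReal (κ p) ∂(hyp m) < ⊤ := by
  have hmeas := measurableSet_Sieg (m := m) C a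
  refine lt_of_le_of_lt ?_ (main_hyp_Sieg (m := m) C a hK.pos)
  rw [← lintegral_indicator_one hmeas]
  apply lintegral_mono_ae
  filter_upwards [ae_hyp_mem] with p hp
  by_cases h : p ∈ Sieg m C a
  · rw [Set.indicator_of_mem h]
    simpa using hK.le_one hp
  · have : κ p = 0 := by
      by_contra h0
      exact h (hK.supp p h0)
    simp [this]

theorem main_measurable_muP (δ s : ℝ) : Measurable (muP m δ s) := by
  unfold muP; fun_prop

theorem main_continuous_hin (e : E m) : Continuous fun p : Pt m => hin e p.2 := by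
  unfold hin
  refine continuous_finsetSum _ fun k _ => ?_
  exact continuous_const.mul (continuous_star.comp (by fun_prop))

theorem main_measurable_pd (e : Pt m) (f : Pt m → ℂ) : Measurable (pd e f) :=
  measurable_fderiv_apply_const ℝ f e

theorem main_measurable_XX (e : E m) (f : Pt m → ℂ) : Measurable (XX e f) := by
  have h1 : Measurable fun p : Pt m => (fderiv ℝ f p) := measurable_fderiv ℝ f
  have h2 : Measurable fun p : Pt m => ((-hin e p.2, e) : Pt m) :=
    ((main_continuous_hin e).neg.prodMk continuous_const).measurable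
  unfold XX
  exact (isBoundedBilinearMap_apply (𝕜 := ℝ) (E := Pt m) (F := ℂ)).continuous.measurable.comp
    (h1.prodMk h2)

theorem main_measurable_gsq (f : Pt m → ℂ) : Measurable (gsq f) := by
  unfold gsq
  exact ((measurable_hgt.pow_const 2).mul (Finset.measurable_sum _ fun r _ =>
    (main_measurable_pd _ f).norm.pow_const 2)).add
    (measurable_hgt.mul (Finset.measurable_sum _ fun k _ => Finset.measurable_sum _ fun r _ =>
      (main_measurable_XX _ f).norm.pow_const 2))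

theorem main_gh_le_gsq (f : Pt m → ℂ) (p : Pt m) : gh f p ≤ gsq f p := by
  unfold gh gsq
  rw [Fin.sum_univ_succ (fun r : Fin 4 => ‖pd (qu r, 0) f p‖ ^ 2)]
  have : 0 ≤ hgt p ^ 2 * ‖pd (qu 0, 0) f p‖ ^ 2 := by positivity
  linarith [mul_add (hgt p ^ 2) (‖pd (qu 0, 0) f p‖ ^ 2)
    (∑ r : Fin 3, ‖pd (qu r.succ, 0) f p‖ ^ 2)]

theorem main_continuous_cellpt (β : Fin (4 * m) → E m) (γ : Fin 3 → Q) (u : ℝ) :
    Continuous fun x : (Fin (4 * m) → ℝ) × (Fin 3 → ℝ) => cellpt β γ x u := by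
  unfold cellpt
  have h0 : Continuous fun x : (Fin (4 * m) → ℝ) × (Fin 3 → ℝ) => ∑ i, x.1 i • β i := by fun_prop
  refine Continuous.prodMk ?_ h0
  refine Continuous.add (Quaternion.continuous_coe.comp ?_) (by fun_prop)
  exact ((continuous_const.add (h0.norm.pow 2)).neg).div_const 2

theorem main_measurable_cell (β : Fin (4 * m) → E m) (γ : Fin 3 → Q) (u : ℝ) :
    Measurable fun x : (Fin (4 * m) → ℝ) × (Fin 3 → ℝ) => cellpt β γ x u :=
  (main_continuous_cellpt β γ u).measurable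

theorem main_cellInt_sum (β : Fin (4 * m) → E m) (γ : Fin 3 → Q) {ι : Type} (S : Finset ι)
    (F : ι → Pt m → ℝ≥0∞) (hF : ∀ i, Measurable (F i)) (u : ℝ) :
    cellInt β γ (fun p => ∑ i ∈ S, F i p) u = ∑ i ∈ S, cellInt β γ (F i) u := by
  unfold cellInt
  rw [lintegral_finsetSum]
  intro i _
  exact (hF i).comp (main_measurable_cell β γ u)

theorem main_pd_congr {f g : Pt m → ℂ} (h : ∀ p ∈ SD m, f p = g p) (e : Pt m) :
    ∀ p ∈ SD m, pd e f p = pd e g p := by
  intro p hp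
  have he : f =ᶠ[𝓝 p] g := by
    filter_upwards [isOpen_SD.mem_nhds hp] with q hq using h q hq
  unfold pd
  rw [he.fderiv_eq]

theorem main_XX_congr {f g : Pt m → ℂ} (h : ∀ p ∈ SD m, f p = g p) (e : E m) :
    ∀ p ∈ SD m, XX e f p = XX e g p := by
  intro p hp
  have he : f =ᶠ[𝓝 p] g := by
    filter_upwards [isOpen_SD.mem_nhds hp] with q hq using h q hq
  unfold XX
  rw [he.fderiv_eq]

theorem main_lap_congr {f g : Pt m → ℂ} (h : ∀ p ∈ SD m, f p = g p) :
    ∀ p ∈ SD m, lap f p = lap g p := by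
  intro p hp
  unfold lap
  have h1 : ∀ r : Fin 4, pd (qu r, 0) (pd (qu r, 0) f) p = pd (qu r, 0) (pd (qu r, 0) g) p :=
    fun r => main_pd_congr (main_pd_congr h _) _ p hp
  have h2 : ∀ (k : Fin m) (r : Fin 4), XX (ek k (qu r)) (XX (ek k (qu r)) f) p
      = XX (ek k (qu r)) (XX (ek k (qu r)) g) p :=
    fun k r => main_XX_congr (main_XX_congr h _) _ p hp
  simp only [h1, h2, main_pd_congr h _ p hp]

/-- if the gradient vanishes, then the Laplacian vanishes -/
theorem main_lap_zero {f : Pt m → ℂ} (h : ∀ p ∈ SD m, gsq f p = 0) :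
    ∀ p ∈ SD m, lap f p = 0 := by
  have key : ∀ p ∈ SD m, (∀ r : Fin 4, pd (qu r, 0) f p = 0) ∧
      ∀ (k : Fin m) (r : Fin 4), XX (ek k (qu r)) f p = 0 := by
    intro p hp
    have hp0 : 0 < hgt p := hp
    have h0 := h p hp
    unfold gsq at h0
    have a1 : 0 ≤ ∑ r : Fin 4, ‖pd (qu r, 0) f p‖ ^ 2 :=
      Finset.sum_nonneg fun r _ => by positivity
    have a3 : ∀ k : Fin m, 0 ≤ ∑ r : Fin 4, ‖XX (ek k (qu r)) f p‖ ^ 2 :=
      fun k => Finset.sum_nonneg fun r _ => by positivity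
    have a4 : 0 ≤ ∑ k : Fin m, ∑ r : Fin 4, ‖XX (ek k (qu r)) f p‖ ^ 2 :=
      Finset.sum_nonneg fun k _ => a3 k
    have b1 : 0 ≤ hgt p ^ 2 * ∑ r : Fin 4, ‖pd (qu r, 0) f p‖ ^ 2 :=
      mul_nonneg (by positivity) a1
    have b2 : 0 ≤ hgt p * ∑ k : Fin m, ∑ r : Fin 4, ‖XX (ek k (qu r)) f p‖ ^ 2 :=
      mul_nonneg hp0.le a4
    have c1 : hgt p ^ 2 * ∑ r : Fin 4, ‖pd (qu r, 0) f p‖ ^ 2 = 0 := by linarith
    have c2 : hgt p * ∑ k : Fin m, ∑ r : Fin 4, ‖XX (ek k (qu r)) f p‖ ^ 2 = 0 := by linarith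
    have d1 : ∑ r : Fin 4, ‖pd (qu r, 0) f p‖ ^ 2 = 0 :=
      (mul_eq_zero.1 c1).resolve_left (by positivity)
    have d2 : ∑ k : Fin m, ∑ r : Fin 4, ‖XX (ek k (qu r)) f p‖ ^ 2 = 0 :=
      (mul_eq_zero.1 c2).resolve_left hp0.ne'
    have d3 := (Finset.sum_eq_zero_iff_of_nonneg fun k _ => a3 k).1 d2
    refine ⟨fun r => ?_, fun k r => ?_⟩
    · have e := (Finset.sum_eq_zero_iff_of_nonneg fun r _ => by positivity).1 d1 r
        (Finset.mem_univ r)
      simpa using e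
    · have e := (Finset.sum_eq_zero_iff_of_nonneg fun r _ => by positivity).1
        (d3 k (Finset.mem_univ k)) r (Finset.mem_univ r)
      simpa using e
  intro p hp
  have z1 : ∀ (e : Pt m) (q : Pt m), pd e (fun _ => (0 : ℂ)) q = 0 := fun e q => by
    unfold pd; simp
  have z2 : ∀ (e : E m) (q : Pt m), XX e (fun _ => (0 : ℂ)) q = 0 := fun e q => by
    unfold XX; simp
  unfold lap
  have h1 : ∀ r : Fin 4, pd (qu r, 0) (pd (qu r, 0) f) p = 0 := fun r => by
    rw [main_pd_congr (g := fun _ => (0 : ℂ)) (fun q hq => (key q hq).1 r) _ p hp, z1]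
  have h2 : ∀ (k : Fin m) (r : Fin 4), XX (ek k (qu r)) (XX (ek k (qu r)) f) p = 0 :=
    fun k r => by
      rw [main_XX_congr (g := fun _ => (0 : ℂ)) (fun q hq => (key q hq).2 k r) _ p hp, z2]
  have h3 : pd ((1 : Q), (0 : E m)) f p = 0 := (key p hp).1 0
  simp only [h1, h2, h3, Finset.sum_const_zero, mul_zero, add_zero]

/-- a nonnegative continuous invariant function the `κ`-integral of which vanishes is zero -/
theorem main_zero (hUN : ST_UNF) {M : AddSubgroup (V m)} (hM : IsLat M) {κ : Pt m → ℝ} {C a : ℝ}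
    (hK : Kap M κ C a) {G : Pt m → ℝ} (hGm : Measurable G) (hGc : ContinuousOn G (SD m))
    (hG0 : ∀ p ∈ SD m, 0 ≤ G p) (hGi : ∀ γ ∈ Gam M, ∀ p ∈ SD m, G (act γ p) = G p)
    (h0 : ∫⁻ p, ENNReal.ofReal (κ p) * ENNReal.ofReal (G p) ∂(hyp m) = 0) :
    ∀ p ∈ SD m, G p = 0 := by
  have hκm : Measurable (fun p => ENNReal.ofReal (κ p)) :=
    hK.smooth.continuous.measurable.ennreal_ofReal
  have hFAm : Measurable fun p => ENNReal.ofReal (G p) := hGm.ennreal_ofReal
  have hSAm : Measurable (fun p => ENNReal.ofReal (κ p) * ENNReal.ofReal (G p)) := hκm.mul hFAm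
  have h1 : ∫⁻ p, (1 : ℝ≥0∞) * ENNReal.ofReal (G p) ∂(hyp m) = 0 := by
    have := hUN m M hM κ C a hK (fun _ => (1 : ℝ≥0∞)) (fun p => ENNReal.ofReal (G p))
      measurable_const hFAm (fun γ hγ p hp => by rw [hGi γ hγ p hp])
    rw [this]
    rw [lintegral_eq_zero_iff hSAm] at h0
    apply (lintegral_eq_zero_iff' ?_).2
    · filter_upwards [h0] with p hp
      simp only [Pi.zero_apply] at hp ⊢
      rcases mul_eq_zero.1 hp with h | h
      · rw [h]; simp
      · rw [h]; simp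
    · exact (hκm.aemeasurable.mul aemeasurable_const).mul hFAm.aemeasurable
  simp only [one_mul] at h1
  rw [lintegral_eq_zero_iff hFAm] at h1
  by_contra hcon
  push Not at hcon
  obtain ⟨p, hp, hup⟩ := hcon
  have hopen : IsOpen (SD m ∩ G ⁻¹' {0}ᶜ) :=
    hGc.isOpen_inter_preimage isOpen_SD isOpen_compl_singleton
  have hnull : hyp m (SD m ∩ G ⁻¹' {0}ᶜ) = 0 := by
    have : ∀ᵐ q ∂(hyp m), q ∉ SD m ∩ G ⁻¹' {0}ᶜ := by
      filter_upwards [h1] with q hq hq2
      simp only [Pi.zero_apply, ENNReal.ofReal_eq_zero] at hq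
      exact hq2.2 (le_antisymm hq (hG0 q hq2.1))
    exact measure_eq_zero_iff_ae_notMem.2 this
  have hpos : 0 < (volume : Measure (Pt m)) (SD m ∩ G ⁻¹' {0}ᶜ) :=
    hopen.measure_pos volume ⟨p, hp, hup⟩
  have hdm : Measurable fun p : Pt m => ENNReal.ofReal ((hgt p ^ (2 * m + 4))⁻¹) :=
    ((measurable_hgt.pow_const (2 * m + 4)).inv).ennreal_ofReal
  rw [hyp, withDensity_apply_eq_zero' hdm.aemeasurable] at hnull
  have hsub : {p : Pt m | ENNReal.ofReal ((hgt p ^ (2 * m + 4))⁻¹) ≠ 0} ∩ (SD m ∩ G ⁻¹' {0}ᶜ)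
      = SD m ∩ G ⁻¹' {0}ᶜ := by
    apply Set.inter_eq_right.2
    rintro q ⟨hq, -⟩
    have : (0 : ℝ) < hgt q := hq
    simp only [Set.mem_ofPred_eq, ne_eq, ENNReal.ofReal_eq_zero, not_le]
    positivity
  rw [hsub, Measure.restrict_apply hopen.measurableSet, Set.inter_assoc] at hnull
  have hsub2 : SD m ∩ (G ⁻¹' {0}ᶜ ∩ SD m) = SD m ∩ G ⁻¹' {0}ᶜ := by
    ext q; simp only [Set.mem_inter_iff]; tauto
  rw [hsub2] at hnull
  exact hpos.ne' hnull

theorem main_continuousOn_gsq {f : Pt m → ℂ} (hf : ContDiffOn ℝ 2 f (SD m)) :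
    ContinuousOn (gsq f) (SD m) := by
  have hd : ContinuousOn (fun p : Pt m => fderiv ℝ f p) (SD m) :=
    (hf.continuousOn_fderiv_of_isOpen isOpen_SD (by norm_num))
  have hpd : ∀ e : Pt m, ContinuousOn (pd e f) (SD m) := fun e => by
    unfold pd
    exact hd.clm_apply continuousOn_const
  have hX : ∀ e : E m, ContinuousOn (XX e f) (SD m) := fun e => by
    unfold XX
    refine hd.clm_apply ?_
    exact ((main_continuous_hin e).neg.prodMk continuous_const).continuousOn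
  unfold gsq
  exact ((continuous_hgt.continuousOn.pow 2).mul (continuousOn_finsetSum _ fun r _ =>
    (hpd _).norm.pow 2)).add
    (continuous_hgt.continuousOn.mul (continuousOn_finsetSum _ fun k _ =>
      continuousOn_finsetSum _ fun r _ => (hX _).norm.pow 2))

theorem main_sys (hGS : ST_GS) (hUN : ST_UNF) (hST : ST_STRIP) (hEN : ST_EN)
    {M : AddSubgroup (V m)} (hM : IsLat M)
    {N : Q → E m → Prop} {β : Fin (4 * m) → E m} {γ : Fin 3 → Q} {δ s : ℝ} (hN : Cusp N β γ)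
    (hNM : ∀ a b, N a b → T a b ∈ Gam M)
    {κ : Pt m → ℝ} {C a' : ℝ} (hK : Kap M κ C a')
    {ψ : ℝ → ℝ} {Mx k0 : ℝ} (hk0 : 0 ≤ k0) (hw : Wts M δ s ψ Mx k0)
    {ι : Type} [Fintype ι] {u : ι → Pt m → ℂ} (hS : Sys M ι u) (hum : ∀ i, Measurable (u i))
    {B : ℝ} (hB : ∀ i, ∀ p ∈ SD m, ‖u i p‖ ≤ B) (lam : ℂ) (heig : ∀ i, WeakEig lam (u i))
    (hW : ∀ i, ∀ r : ℝ, 0 < r →
      ENNReal.ofReal (muP m δ s r) * cellInt β γ (fun p => ENNReal.ofReal (‖u i p‖ ^ 2)) r
        ≤ cellInt β γ (fun p => ENNReal.ofReal (gh (u i) p)) r)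
    (hne : ∃ i, ∃ p ∈ SD m, u i p ≠ 0) :
    lam.im = 0 ∧ (k0 ≤ lam.re ∨ (lam.re < 0 ∧ ∀ i, ∀ p ∈ SD m, gsq (u i) p = 0)) := by
  set FA : Pt m → ℝ≥0∞ := fun p => ENNReal.ofReal (∑ i, ‖u i p‖ ^ 2) with hFA
  set FB : Pt m → ℝ≥0∞ := fun p => ENNReal.ofReal (∑ i, gsq (u i) p) with hFB
  have hFAm' : Measurable fun p => ∑ i, ‖u i p‖ ^ 2 :=
    Finset.measurable_sum _ (fun i _ => ((hum i).norm.pow_const 2))
  have hFBm' : Measurable fun p => ∑ i, gsq (u i) p :=
    Finset.measurable_sum _ (fun i _ => main_measurable_gsq (u i))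
  have hFAm : Measurable FA := hFAm'.ennreal_ofReal
  have hFBm : Measurable FB := hFBm'.ennreal_ofReal
  have hκm : Measurable (fun p => ENNReal.ofReal (κ p)) :=
    hK.smooth.continuous.measurable.ennreal_ofReal
  have hSAm : Measurable (fun p => ENNReal.ofReal (κ p) * FA p) := hκm.mul hFAm
  have hSBm : Measurable (fun p => ENNReal.ofReal (κ p) * FB p) := hκm.mul hFBm
  -- invariance
  have hFAi' : ∀ γ ∈ Gam M, ∀ p ∈ SD m, ∑ i, ‖u i (act γ p)‖ ^ 2 = ∑ i, ‖u i p‖ ^ 2 := by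
    intro γ hγ p hp
    obtain ⟨σ, hσ⟩ := hS.perm γ hγ
    rw [← Equiv.sum_comp σ (fun i => ‖u i p‖ ^ 2)]
    exact Finset.sum_congr rfl (fun i _ => by rw [hσ i p hp])
  have hFAi : ∀ γ ∈ Gam M, ∀ p ∈ SD m, FA (act γ p) = FA p := by
    intro γ hγ p hp
    simp only [hFA]
    rw [hFAi' γ hγ p hp]
  have hdiff : ∀ i, ∀ p ∈ SD m, DifferentiableAt ℝ (u i) p := by
    intro i p hp
    exact ((hS.smooth i).contDiffAt (isOpen_SD.mem_nhds hp)).differentiableAt (by norm_num)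
  have hFBi' : ∀ γ ∈ Gam M, ∀ p ∈ SD m, ∑ i, gsq (u i) (act γ p) = ∑ i, gsq (u i) p := by
    intro γ hγ p hp
    obtain ⟨σ, hσ⟩ := hS.perm γ hγ
    rw [← Equiv.sum_comp σ (fun i => gsq (u i) p)]
    refine Finset.sum_congr rfl (fun i _ => ?_)
    rw [← hGS m γ hγ.1 p hp (u i) (hdiff i _ (act_mem hγ.1 hp))]
    have he : (fun q => u i (act γ q)) =ᶠ[𝓝 p] u (σ i) := by
      filter_upwards [isOpen_SD.mem_nhds hp] with q hq using hσ i q hq
    unfold gsq pd XX
    rw [he.fderiv_eq]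
  have hFBi : ∀ γ ∈ Gam M, ∀ p ∈ SD m, FB (act γ p) = FB p := by
    intro γ hγ p hp
    simp only [hFB]
    rw [hFBi' γ hγ p hp]
  set SA := ∫⁻ p, ENNReal.ofReal (κ p) * FA p ∂(hyp m) with hSA
  set SB := ∫⁻ p, ENNReal.ofReal (κ p) * FB p ∂(hyp m) with hSB
  -- SA is finite
  have hSAtop : SA ≠ ⊤ := by
    have hle : SA ≤ ∫⁻ p, ENNReal.ofReal (κ p) * ENNReal.ofReal (∑ _i : ι, B ^ 2) ∂(hyp m) := by
      apply lintegral_mono_ae
      filter_upwards [ae_hyp_mem] with p hp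
      gcongr
      apply ENNReal.ofReal_le_ofReal
      exact Finset.sum_le_sum (fun i _ => pow_le_pow_left₀ (norm_nonneg _) (hB i p hp) 2)
    refine ne_top_of_le_ne_top ?_ hle
    rw [lintegral_mul_const _ hκm]
    exact ENNReal.mul_ne_top hK.lintegral_lt_top.ne ENNReal.ofReal_ne_top
  obtain ⟨hE1, hE2⟩ := hEN m M hM κ C a' hK ι inferInstance u hS lam heig hSAtop
  change SB ≤ ENNReal.ofReal lam.re * SA at hE1
  change lam.im = 0 ∨ SA = 0 at hE2
  have hgsq0 : ∀ i, ∀ p ∈ SD m, 0 ≤ gsq (u i) p := by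
    intro i p hp
    have hp0 : 0 < hgt p := hp
    unfold gsq
    positivity
  -- SA is positive
  have hSA0 : SA ≠ 0 := by
    intro h0
    obtain ⟨i, p, hp, hup⟩ := hne
    have hz := main_zero hUN hM hK hFAm' (continuousOn_finsetSum _ fun i _ =>
      ((hS.smooth i).continuousOn.norm.pow 2)) (fun p _ => by positivity) hFAi' h0 p hp
    have h3 : ‖u i p‖ ^ 2 ≤ ∑ j, ‖u j p‖ ^ 2 :=
      Finset.single_le_sum (f := fun j => ‖u j p‖ ^ 2) (fun j _ => by positivity)
        (Finset.mem_univ i)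
    have h4 : 0 < ‖u i p‖ ^ 2 := by positivity
    linarith
  have him : lam.im = 0 := hE2.resolve_right hSA0
  refine ⟨him, ?_⟩
  -- the chain
  obtain ⟨KK, hK0, hKtop, hKK⟩ := hST m M hM κ C a' hK N β γ hN hNM
  have hup : ∫⁻ r in Set.Ioi (0 : ℝ), ENNReal.ofReal (ψ r) * cellInt β γ FB r
        * ENNReal.ofReal ((r ^ (2 * m + 4))⁻¹) ≤ KK * (ENNReal.ofReal Mx * SB) := by
    rw [hKK (fun r => ENNReal.ofReal (ψ r)) FB hw.meas.ennreal_ofReal hFBm hFBi]
    gcongr
    rw [hSB, ← lintegral_const_mul _ hSBm]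
    apply lintegral_mono_ae
    filter_upwards [ae_hyp_mem] with p hp
    calc _ ≤ ENNReal.ofReal (κ p) * ENNReal.ofReal Mx * FB p := by
            gcongr
            exact hw.up p hp
      _ = _ := by ring
  have hQm : Measurable fun r : ℝ => ENNReal.ofReal (muP m δ s r * ψ r) :=
    ((main_measurable_muP δ s).mul hw.meas).ennreal_ofReal
  have hlow : KK * (ENNReal.ofReal (k0 * Mx) * SA) ≤
      ∫⁻ r in Set.Ioi (0 : ℝ), ENNReal.ofReal (muP m δ s r * ψ r) * cellInt β γ FA r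
        * ENNReal.ofReal ((r ^ (2 * m + 4))⁻¹) := by
    rw [hKK (fun r => ENNReal.ofReal (muP m δ s r * ψ r)) FA hQm hFAm hFAi]
    gcongr
    rw [hSA, ← lintegral_const_mul _ hSAm]
    apply lintegral_mono_ae
    filter_upwards [hw.low] with p hp
    calc _ = ENNReal.ofReal (κ p) * ENNReal.ofReal (k0 * Mx) * FA p := by ring
      _ ≤ _ := by gcongr
  have hcA : ∀ r : ℝ, cellInt β γ FA r
      = ∑ i, cellInt β γ (fun p => ENNReal.ofReal (‖u i p‖ ^ 2)) r := by
    intro r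
    rw [← main_cellInt_sum β γ Finset.univ (fun i p => ENNReal.ofReal (‖u i p‖ ^ 2))
      (fun i => ((hum i).norm.pow_const 2).ennreal_ofReal)]
    congr 1
    funext p
    simp only [hFA]
    rw [ENNReal.ofReal_sum_of_nonneg (fun i _ => by positivity)]
  have hgle : ∀ r : ℝ, 0 < r → ∑ i, cellInt β γ (fun p => ENNReal.ofReal (gh (u i) p)) r
      ≤ cellInt β γ FB r := by
    intro r hr
    have h1 : ∀ i, cellInt β γ (fun p => ENNReal.ofReal (gh (u i) p)) r
        ≤ cellInt β γ (fun p => ENNReal.ofReal (gsq (u i) p)) r := by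
      intro i
      unfold cellInt
      exact lintegral_mono fun x => ENNReal.ofReal_le_ofReal (main_gh_le_gsq _ _)
    refine (Finset.sum_le_sum fun i _ => h1 i).trans ?_
    rw [← main_cellInt_sum β γ Finset.univ (fun i p => ENNReal.ofReal (gsq (u i) p))
      (fun i => (main_measurable_gsq (u i)).ennreal_ofReal)]
    unfold cellInt
    apply lintegral_mono
    intro x
    have hh : hgt (cellpt β γ x r) = r := hgt_cellpt β hN.im x r
    simp only [hFB]
    rw [ENNReal.ofReal_sum_of_nonneg (fun i _ => ?_)]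
    exact hgsq0 i _ (by change 0 < hgt _; rw [hh]; exact hr)
  have hmid : ∫⁻ r in Set.Ioi (0 : ℝ), ENNReal.ofReal (muP m δ s r * ψ r) * cellInt β γ FA r
        * ENNReal.ofReal ((r ^ (2 * m + 4))⁻¹) ≤
      ∫⁻ r in Set.Ioi (0 : ℝ), ENNReal.ofReal (ψ r) * cellInt β γ FB r
        * ENNReal.ofReal ((r ^ (2 * m + 4))⁻¹) := by
    apply setLIntegral_mono' measurableSet_Ioi
    intro r hr
    have hr0 : (0 : ℝ) < r := hr
    gcongr ?_ * _
    rw [mul_comm (muP m δ s r), ENNReal.ofReal_mul (hw.nonneg r), mul_assoc]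
    gcongr
    rw [hcA r, Finset.mul_sum]
    exact (Finset.sum_le_sum fun i _ => hW i r hr0).trans (hgle r hr0)
  have h1 := hlow.trans (hmid.trans hup)
  have hn0 : ENNReal.ofReal Mx ≠ 0 := by
    simpa using hw.pos
  have h2 : ENNReal.ofReal k0 * SA ≤ SB := by
    rw [ENNReal.mul_le_mul_iff_right hK0 hKtop, ENNReal.ofReal_mul hk0] at h1
    have e : ENNReal.ofReal k0 * ENNReal.ofReal Mx * SA
        = ENNReal.ofReal Mx * (ENNReal.ofReal k0 * SA) := by ring
    rwa [e, ENNReal.mul_le_mul_iff_right hn0 ENNReal.ofReal_ne_top] at h1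
  have h3 : ENNReal.ofReal k0 * SA ≤ ENNReal.ofReal lam.re * SA := h2.trans hE1
  rw [ENNReal.mul_le_mul_iff_left hSA0 hSAtop] at h3
  rcases le_or_gt 0 lam.re with hpos | hneg
  · left
    by_contra hlt
    push Not at hlt
    exact absurd h3 (not_le.2 ((ENNReal.ofReal_lt_ofReal_iff (hpos.trans_lt hlt)).2 hlt))
  · right
    have hSB0 : SB = 0 := by
      rw [ENNReal.ofReal_of_nonpos hneg.le, zero_mul] at hE1
      exact le_antisymm hE1 zero_le
    have hz := main_zero hUN hM hK hFBm' (continuousOn_finsetSum _ fun i _ =>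
      main_continuousOn_gsq (hS.smooth i))
      (fun p hp => Finset.sum_nonneg fun i _ => hgsq0 i p hp) hFBi' hSB0
    refine ⟨hneg, fun i p hp => ?_⟩
    exact (Finset.sum_eq_zero_iff_of_nonneg fun i _ => hgsq0 i p hp).1 (hz p hp) i
      (Finset.mem_univ i)

theorem st_MAIN (hKAP : ST_KAP) (hUN : ST_UNF) (hST : ST_STRIP) (hGR : ST_GREEN) (hWC : ST_WC)
    (hEN : ST_EN) (hPO : ST_POI) (hGS : ST_GS) (hCD : ST_CD) (hME : ST_ME) : ST_MAIN := by
  intro m M hM N β γ δ s hN hDM hCM hδ hs hNM C0 a0 ha0 hcov ψ Mx k0 hk0 hw Δ hfi f hf hinv hbdd lam heig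
    hwid hcusp hne
  classical
  obtain ⟨B, hB⟩ := hbdd
  obtain ⟨κ, C, a', hK⟩ := hKAP m M hM C0 a0 ha0 hcov
  set f₀ : Pt m → ℂ := (SD m).indicator f with hf₀
  have hff : ∀ p ∈ SD m, f₀ p = f p := fun p hp => Set.indicator_of_mem hp f
  have hf₀c : ContDiffOn ℝ 2 f₀ (SD m) := hf.congr hff
  have hf₀m : Measurable f₀ := by
    have := (hf.continuousOn.measurable_piecewise (g := (0 : Pt m → ℂ))
      continuous_zero.continuousOn measurableSet_SD)
    rwa [Set.piecewise_eq_indicator] at this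
  have hOL : ∀ γ ∈ Gam M, γ ∈ UG m := fun γ hγ => hγ.1
  have hf₀i : ∀ γ ∈ Δ, γ ∈ UG m → ∀ p ∈ SD m, f₀ (act γ p) = f₀ p := by
    intro γ hγ hγ' p hp
    rw [hff _ (act_mem hγ' hp), hff p hp, hinv γ hγ p hp]
  have hf₀e : WeakEig lam f₀ := by
    apply hGR m f₀ hf₀c lam
    intro p hp
    rw [main_lap_congr hff p hp, heig p hp, hff p hp]
  let H : Subgroup (Gam M) := Δ.subgroupOf (Gam M)
  have hHi : H.index ≠ 0 := hfi
  have : H.FiniteIndex := ⟨hHi⟩
  have : Finite (Gam M ⧸ H) := Subgroup.finite_quotient_of_finiteIndex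
  have : Fintype (Gam M ⧸ H) := Fintype.ofFinite _
  let u : (Gam M ⧸ H) → Pt m → ℂ := fun q p => f₀ (act ((q.out : Gam M) : V m ≃ₗ[Q] V m)⁻¹ p)
  have hLGi : ∀ g : Gam M, ((g : V m ≃ₗ[Q] V m))⁻¹ ∈ UG m := fun g => (UG m).inv_mem g.2.1
  -- independence of the representative
  have hrep : ∀ (g : Gam M), ∀ p ∈ SD m,
      u (g : Gam M ⧸ H) p = f₀ (act (g : V m ≃ₗ[Q] V m)⁻¹ p) := by
    intro g p hp
    obtain ⟨h, hh⟩ := QuotientGroup.mk_out_eq_mul H g
    simp only [u]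
    rw [hh]
    have e : (((g * (h : Gam M) : Gam M) : V m ≃ₗ[Q] V m))⁻¹
        = ((h : Gam M) : V m ≃ₗ[Q] V m)⁻¹ * (g : V m ≃ₗ[Q] V m)⁻¹ := by
      push_cast
      rw [mul_inv_rev]
    rw [e, act_mul _ (hLGi g) hp]
    apply hf₀i _ _ (hLGi h) _ (act_mem (hLGi g) hp)
    exact Δ.inv_mem h.2
  have hum : ∀ q, Measurable (u q) := fun q => hf₀m.comp (hME m _)
  have huc : ∀ q, ContDiffOn ℝ 2 (u q) (SD m) := fun q =>
    hf₀c.comp (hCD m _ (hLGi _)) (fun p hp => act_mem (hLGi _) hp)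
  have hS : Sys M (Gam M ⧸ H) u := by
    refine ⟨huc, ?_⟩
    intro γ hγ
    refine ⟨MulAction.toPerm (⟨γ, hγ⟩⁻¹ : Gam M), ?_⟩
    intro q p hp
    obtain ⟨g, rfl⟩ := QuotientGroup.mk_surjective q
    rw [hrep g _ (act_mem (hOL γ hγ) hp)]
    have e1' : (MulAction.toPerm (⟨γ, hγ⟩⁻¹ : Gam M)) ((g : Gam M) : Gam M ⧸ H)
        = (((⟨γ, hγ⟩⁻¹ : Gam M) * g : Gam M) : Gam M ⧸ H) := rfl
    rw [e1', hrep _ p hp, ← act_mul _ (hOL γ hγ) hp]
    congr 2
  have hper : ∀ q, ∀ a b, N a b → ∀ p ∈ SD m, u q (act (T a b) p) = u q p := by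
    intro q a b hab p hp
    simp only [u]
    have hgG : ((q.out : Gam M) : V m ≃ₗ[Q] V m)⁻¹ ∈ Gam M := (Gam M).inv_mem (q.out : Gam M).2
    have hl : ((q.out : Gam M) : V m ≃ₗ[Q] V m)⁻¹ * T a b *
        ((q.out : Gam M) : V m ≃ₗ[Q] V m) ∈ Δ := by
      have := hwid _ hgG a b hab
      rwa [inv_inv] at this
    have hTU : T a b ∈ UG m := T_mem_UG (hN.norm a b hab)
    have e : ((q.out : Gam M) : V m ≃ₗ[Q] V m)⁻¹ * T a b
        = (((q.out : Gam M) : V m ≃ₗ[Q] V m)⁻¹ * T a b *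
            ((q.out : Gam M) : V m ≃ₗ[Q] V m))
          * ((q.out : Gam M) : V m ≃ₗ[Q] V m)⁻¹ := by group
    rw [← act_mul _ hTU hp, e, act_mul _ (hOL _ hgG) hp]
    refine hf₀i _ hl ?_ _ (act_mem (hOL _ hgG) hp)
    exact (UG m).mul_mem ((UG m).mul_mem (hOL _ hgG) hTU) (q.out : Gam M).2.1
  have hcell : ∀ (x : (Fin (4 * m) → ℝ) × (Fin 3 → ℝ)) (r : ℝ), 0 < r → cellpt β γ x r ∈ SD m := by
    intro x r hr
    show 0 < hgt (cellpt β γ x r)
    rw [hgt_cellpt β hN.im x r]; exact hr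
  have hmean : ∀ q, ∀ r : ℝ, 0 < r →
      ∫ x in Set.Icc (0 : (Fin (4 * m) → ℝ) × (Fin 3 → ℝ)) 1, u q (cellpt β γ x r) = 0 := by
    intro q r hr
    rw [← hcusp _ ((Gam M).inv_mem (q.out : Gam M).2) r hr]
    congr 1
    funext x
    exact hff _ (act_mem (hLGi _) (hcell x r hr))
  have huB : ∀ q, ∀ p ∈ SD m, ‖u q p‖ ≤ B := by
    intro q p hp
    simp only [u]
    rw [hff _ (act_mem (hLGi _) hp)]
    exact hB _ (act_mem (hLGi _) hp)
  have hu1 : ∀ p ∈ SD m, u ((1 : Gam M) : Gam M ⧸ H) p = f p := by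
    intro p hp
    rw [hrep 1 p hp, Subgroup.coe_one, inv_one, act_one p, hff p hp]
  have hne' : ∃ q, ∃ p ∈ SD m, u q p ≠ 0 := by
    obtain ⟨p, hp, hfp⟩ := hne
    refine ⟨((1 : Gam M) : Gam M ⧸ H), p, hp, ?_⟩
    rw [hu1 p hp]
    exact hfp
  obtain ⟨h1, h2⟩ := main_sys hGS hUN hST hEN hM hN hNM hK hk0 hw hS hum huB lam
    (fun q => hWC m _ (hLGi _) f₀ (hf₀c.of_le (by norm_num)) lam hf₀e)
    (fun q r hr => hPO m N β γ δ s hN hDM hCM hs (u q) (huc q) (hper q) r hr (hmean q r hr)) hne'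
  refine ⟨lam.re, ?_, by apply Complex.ext <;> simp [h1]⟩
  rcases h2 with h2 | ⟨hneg, h2⟩
  · exact h2
  · exfalso
    obtain ⟨p, hp, hfp⟩ := hne
    have h3 := main_lap_zero (h2 ((1 : Gam M) : Gam M ⧸ H)) p hp
    rw [main_lap_congr hu1 p hp, heig p hp] at h3
    have h4 : lam = 0 := by
      rcases mul_eq_zero.1 h3 with h | h
      · simpa using h
      · exact absurd h hfp
    rw [h4] at hneg
    simp at hneg

end Pool.Agent.Helper19.Qh
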